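import Pool.Agent.W345.VO.Stm

/-!
Project VO, piece VO-STB: submodules stable under the generators are stable.
-/

set_option autoImplicit false

open Pool.Agent.W345.VO

namespace Pool.Agent.W639.VO

universe u

theorem bc_zero (i : ℕ) : bc 0 i = if i = 0 then 1 else 0 := by
  unfold bc
  rcases i with _ | i
  · simp
  · rw [Ring.choose_zero_succ]; simp

theorem lhs_eq {M : Type u} [AddCommGroup M] [Module ℂ M] (f : ℕ → M) :
    ∑ᶠ i : ℕ, bc 0 i • f i = f 0 := by
  rw [finsum_eq_single _ 0]
  · rw [bc_zero, if_pos rfl, one_smul]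
  · intro i hi
    rw [bc_zero, if_neg hi, zero_smul]

theorem stb : S_GEN → S_STB.{u} := by
  intro hgen A hA M _ _ X N hN
  obtain ⟨hone, h1, hm1, -⟩ := hA
  let S : Submodule ℂ VV :=
    { carrier := {a | ∀ (n : ℤ) (w : M), w ∈ N → X.Y a n w ∈ N}
      add_mem' := by
        intro a b ha hb n w hw
        rw [map_add, Pi.add_apply, LinearMap.add_apply]
        exact N.add_mem (ha n w hw) (hb n w hw)
      zero_mem' := by
        intro n w hw
        rw [map_zero, Pi.zero_apply, LinearMap.zero_apply]
        exact N.zero_mem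
      smul_mem' := by
        intro c a ha n w hw
        rw [map_smul, Pi.smul_apply, LinearMap.smul_apply]
        exact N.smul_mem c (ha n w hw) }
  have key : ∀ a b : VV, a ∈ S → b ∈ S → ∀ j : ℤ, A.Y a j b ∈ S := by
    intro a b ha hb j m w hw
    have hB := X.borcherds a b w 0 m j
    rw [lhs_eq (fun i : ℕ => X.Y (A.Y a (j + i) b) (0 + m - i) w)] at hB
    simp only [Nat.cast_zero, add_zero, zero_add, sub_zero] at hB
    rw [hB]
    refine finsum_induction (fun x => x ∈ N) N.zero_mem (fun x y hx hy => N.add_mem hx hy) ?_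
    intro i
    refine N.smul_mem _ (N.sub_mem ?_ (N.smul_mem _ ?_))
    · exact ha _ _ (hb _ _ hw)
    · exact hb _ _ (ha _ _ hw)
  have hS1 : ee 1 ∈ S := fun n w hw => (hN n w hw).1
  have hSm1 : ee (-1) ∈ S := fun n w hw => (hN n w hw).2
  have hS0 : ee 0 ∈ S := by
    intro n w hw
    rw [← hone, X.one_left]
    split_ifs
    · exact hw
    · exact N.zero_mem
  have htop : S = ⊤ := by
    refine hgen S hS0 ?_ ?_
    · intro n v hv
      rw [← h1]
      exact key _ _ hS1 hv n
    · intro n v hv
      rw [← hm1]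
      exact key _ _ hSm1 hv n
  intro a n w hw
  have : a ∈ S := htop ▸ Submodule.mem_top
  exact this n w hw

end Pool.Agent.W639.VO
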